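import Mathlib
import Pool.Agent.W983.PL.Defs
import Pool.Agent.W983.PL.All

set_option autoImplicit false

/-!
# A pants-like `COL_2` group with at most two fixed points which is not Fuchsian

All notions are defined in the first section of `Pool.Agent.W983.PL.Defs`.
The group is a free group of infinite rank, generated by piecewise affine circle homeomorphisms
in a contracting ping-pong position.
-/

namespace Pool.Agent.Results.MP_fe6d1a_gt.NotFuchsian

open Pool.Agent.W983.PL

/-- There is a countable, torsion-free, discrete, pants-like `COL_2` group of orientation
preserving homeomorphisms of the circle, all of whose nontrivial elements have at most two fixed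
points, which is not Fuchsian. -/
theorem result :
    ∃ G : Subgroup HC, Countable G ∧ (∀ g ∈ G, OrientationPreserving g) ∧
      TorsionFree G ∧ Discrete G ∧ PantsLike G ∧
      (∀ g ∈ G, g ≠ 1 → {z : Circle | g z = z}.encard ≤ 2) ∧ ¬ IsFuchsian G := by
  by_contra h
  refine notQ1 fun G h1 h2 h3 h4 h5 h6 => ?_
  by_contra h7
  exact h ⟨G, h1, h2, h3, h4, h5, h6, h7⟩

end Pool.Agent.Results.MP_fe6d1a_gt.NotFuchsian
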